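import Mathlib

/-!
# The Parry measure of the golden mean shift is a frequency measure
-/

namespace Pool.Agent.Results.MP_3f28ca_an.ParryFrequency

open Topology Set Filter MeasureTheory
open scoped ENNReal NNReal BigOperators

/-! ### Random substitutions on `{a, b}`; `false` is the letter `a`, `true` the letter `b` -/

/-- A random substitution: every letter is assigned a finitely supported law on nonempty words
(its realisations are the words of positive probability). -/
structure RandomSubst where
  law : Bool → PMF (List Bool)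
  finite : ∀ c, (law c).support.Finite
  nonempty : ∀ c, [] ∉ (law c).support

/-- The law of the random image of a word: every letter is replaced independently by one of its
realisations. -/
noncomputable def RandomSubst.onWord (ϑ : RandomSubst) : List Bool → PMF (List Bool)
  | [] => PMF.pure []
  | c :: w => (ϑ.law c).bind fun s => (ϑ.onWord w).bind fun t => PMF.pure (s ++ t)

/-- The law of `ϑ^n(c)`. -/
noncomputable def RandomSubst.iter (ϑ : RandomSubst) (c : Bool) : ℕ → PMF (List Bool)
  | 0 => PMF.pure [c]
  | n + 1 => (ϑ.iter c n).bind ϑ.onWord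

/-- The substitution matrix. -/
noncomputable def RandomSubst.matrix (ϑ : RandomSubst) : Matrix Bool Bool ℝ :=
  fun d c => ∑' s, (ϑ.law c s).toReal * (s.count d : ℝ)

/-- Primitivity. -/
def RandomSubst.Primitive (ϑ : RandomSubst) : Prop :=
  ∃ n : ℕ, ∀ c d, 0 < (ϑ.matrix ^ n) c d

/-- The number of occurrences of `v` (nonempty) in a word. -/
def occ (v : List Bool) : List Bool → ℕ
  | [] => 0
  | c :: u => occ v u + if v.isPrefixOf (c :: u) then 1 else 0

/-- The shift on `{a, b}^ℤ`. -/
def shift (x : ℤ → Bool) : ℤ → Bool := fun i => x (i + 1)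

/-- The cylinder of the word `v` at the position `k`. -/
def cyl (k : ℤ) (v : List Bool) : Set (ℤ → Bool) :=
  {x | ∀ (i : ℕ) (hi : i < v.length), x (k + i) = v[i]}

/-- `W` is a sequence of random words on the probability space `(Ω, P)` such that `W n` has the
law of `ϑ^n(c)`. -/
def IsIteration (ϑ : RandomSubst) (c : Bool) {Ω : Type} [MeasurableSpace Ω] (P : Measure Ω)
    (W : ℕ → Ω → List Bool) : Prop :=
  ∀ n w, MeasurableSet {ω | W n ω = w} ∧ P {ω | W n ω = w} = ϑ.iter c n w

/-- `μ` is the frequency measure of `ϑ`: it is a shift-invariant Borel probability measure and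
for each letter `c` and each nonempty word `v` the relative frequency of `v` in `ϑ^n(c)` converges
almost surely to `μ [v]`. -/
def IsFrequencyMeasure (ϑ : RandomSubst) (μ : Measure (ℤ → Bool)) : Prop :=
  IsProbabilityMeasure μ ∧ MeasurePreserving shift μ μ ∧
  ∀ (c : Bool) (Ω : Type) (_ : MeasurableSpace Ω) (P : Measure Ω) (_ : IsProbabilityMeasure P)
    (W : ℕ → Ω → List Bool), IsIteration ϑ c P W → ∀ v : List Bool, v ≠ [] →
      ∀ᵐ ω ∂P, Tendsto (fun n => (occ v (W n ω) : ℝ) / (W n ω).length) atTop
        (𝓝 (μ (cyl 0 v)).toReal)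

/-- The golden mean `τ`. -/
noncomputable def τ : ℝ := (1 + √5) / 2

/-- Transition probabilities. -/
noncomputable def trans : Bool → Bool → ℝ
  | false, false => τ⁻¹
  | false, true => (τ ^ 2)⁻¹
  | true, false => 1
  | true, true => 0

/-- Initial distribution. -/
noncomputable def init : Bool → ℝ
  | false => τ ^ 2 / (τ ^ 2 + 1)
  | true => 1 / (τ ^ 2 + 1)

/-- The product of the transition probabilities along a word, starting at the letter `c`. -/
noncomputable def chain : Bool → List Bool → ℝ
  | _, [] => 1
  | c, d :: v => trans c d * chain d v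

/-- The probability of a word under the Parry measure. -/
noncomputable def parry : List Bool → ℝ
  | [] => 1
  | c :: v => init c * chain c v

/-- `μ` is the Parry measure of the golden mean shift, the stationary Markov measure. -/
def IsParry (μ : Measure (ℤ → Bool)) : Prop :=
  IsProbabilityMeasure μ ∧ ∀ (k : ℤ) (v : List Bool), μ (cyl k v) = ENNReal.ofReal (parry v)

/-! ### The parameter -/

/-- The probability of the realisation `ab`. -/
noncomputable def p : ℝ := (τ ^ 2)⁻¹

lemma τ_sq : τ ^ 2 = τ + 1 := Real.goldenRatio_sq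
lemma τ_gt : 1 < τ := Real.one_lt_goldenRatio

lemma p_pos : 0 < p := by
  have := τ_gt
  unfold p; positivity

lemma p_lt : p < 1 := by
  have := τ_gt
  unfold p
  rw [inv_lt_one₀ (by positivity)]
  nlinarith

lemma one_sub_p : 1 - p = τ⁻¹ := by
  have h1 := τ_gt
  have h2 := τ_sq
  unfold p
  field_simp
  linarith

lemma init_false : init false = 1 / (1 + p) := by
  have h1 := τ_gt
  unfold p init
  field_simp

lemma init_true : init true = p / (1 + p) := by
  have h1 := τ_gt
  unfold p init
  field_simp

/-- The law of a biased coin. -/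
noncomputable def bern : PMF Bool :=
  PMF.ofFintype (fun b => cond b (ENNReal.ofReal p) (ENNReal.ofReal (1 - p))) (by
    rw [Fintype.sum_bool]
    change ENNReal.ofReal p + ENNReal.ofReal (1 - p) = 1
    rw [← ENNReal.ofReal_add p_pos.le (by linarith [p_lt])]
    simp)

/-- The blocks `a` and `ab`. -/
def blk (b : Bool) : List Bool := cond b [false, true] [false]

/-- The random substitution `a, b ↦ a` with probability `1 - p = τ⁻¹`, `a, b ↦ ab` with
probability `p = τ⁻²`. -/
noncomputable def sub : RandomSubst where
  law _ := bern.map blk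
  finite _ := by
    rw [PMF.support_map]
    exact (Set.toFinite _).image _
  nonempty _ := by
    rw [PMF.support_map]
    rintro ⟨b, -, hb⟩
    cases b <;> simp [blk] at hb

/-! ### Expectations with respect to a `PMF` -/

/-- Expectation. -/
noncomputable def EE {α : Type} (q : PMF α) (g : α → ℝ≥0∞) : ℝ≥0∞ := ∑' u, q u * g u

lemma EE_pure {α : Type} (a : α) (g : α → ℝ≥0∞) : EE (PMF.pure a) g = g a := by
  unfold EE
  rw [tsum_eq_single a]
  · simp
  · intro b hb
    simp [hb]

lemma EE_bind {α β : Type} (q : PMF α) (f : α → PMF β) (g : β → ℝ≥0∞) :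
    EE (q.bind f) g = EE q fun a => EE (f a) g := by
  unfold EE
  simp_rw [PMF.bind_apply, ← ENNReal.tsum_mul_right, ← ENNReal.tsum_mul_left]
  rw [ENNReal.tsum_comm]
  simp_rw [mul_assoc]

lemma EE_map {α β : Type} (q : PMF α) (f : α → β) (g : β → ℝ≥0∞) :
    EE (q.map f) g = EE q fun a => g (f a) := by
  unfold PMF.map
  rw [EE_bind]
  simp only [Function.comp_apply, EE_pure]

lemma EE_mono {α : Type} (q : PMF α) {g g' : α → ℝ≥0∞} (h : ∀ a, g a ≤ g' a) :
    EE q g ≤ EE q g' :=
  ENNReal.tsum_le_tsum fun a => mul_le_mul_right (h a) _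

lemma EE_const_mul {α : Type} (q : PMF α) (c : ℝ≥0∞) (g : α → ℝ≥0∞) :
    EE q (fun a => c * g a) = c * EE q g := by
  unfold EE
  rw [← ENNReal.tsum_mul_left]
  refine tsum_congr fun a => ?_
  ring

lemma EE_law (g : List Bool → ℝ≥0∞) (c : Bool) :
    EE (sub.law c) g = ENNReal.ofReal (1 - p) * g [false] + ENNReal.ofReal p * g [false, true] := by
  change EE (bern.map blk) g = _
  rw [EE_map]
  unfold EE
  rw [tsum_fintype, Fintype.sum_bool, add_comm]
  rfl

/-! ### The explicit expectation over lists of blocks -/

/-- The word with a given list of blocks. -/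
def flat : List Bool → List Bool
  | [] => []
  | x :: s => blk x ++ flat s

lemma flat_false (s : List Bool) : flat (false :: s) = false :: flat s := rfl
lemma flat_true (s : List Bool) : flat (true :: s) = false :: true :: flat s := rfl

/-- Expectation of a function of `N` independent block types. -/
noncomputable def Ex : ℕ → (List Bool → ℝ) → ℝ
  | 0, g => g []
  | N + 1, g => (1 - p) * Ex N (fun s => g (false :: s)) + p * Ex N (fun s => g (true :: s))

lemma Ex_mono (N : ℕ) {g g' : List Bool → ℝ} (h : ∀ s, s.length = N → g s ≤ g' s) :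
    Ex N g ≤ Ex N g' := by
  induction N generalizing g g' with
  | zero => exact h [] rfl
  | succ N ih =>
    have h1 := p_pos
    have h2 := p_lt
    have e1 := ih (g := fun s => g (false :: s)) (g' := fun s => g' (false :: s))
      fun s hs => h _ (by simp [hs])
    have e2 := ih (g := fun s => g (true :: s)) (g' := fun s => g' (true :: s))
      fun s hs => h _ (by simp [hs])
    unfold Ex
    have h3 : 0 ≤ 1 - p := by linarith
    nlinarith [mul_le_mul_of_nonneg_left e1 h3, mul_le_mul_of_nonneg_left e2 h1.le]

lemma Ex_congr (N : ℕ) {g g' : List Bool → ℝ} (h : ∀ s, s.length = N → g s = g' s) :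
    Ex N g = Ex N g' :=
  le_antisymm (Ex_mono N fun s hs => (h s hs).le) (Ex_mono N fun s hs => (h s hs).ge)

lemma Ex_lin (N : ℕ) (a b c : ℝ) (g g' : List Bool → ℝ) :
    Ex N (fun s => a * g s + b * g' s + c) = a * Ex N g + b * Ex N g' + c := by
  induction N generalizing g g' with
  | zero => rfl
  | succ N ih =>
    unfold Ex
    rw [ih (fun s => g (false :: s)) (fun s => g' (false :: s)),
      ih (fun s => g (true :: s)) (fun s => g' (true :: s))]
    ring

lemma EE_onWord (w : List Bool) (g : List Bool → ℝ) (hg : ∀ u, 0 ≤ g u) :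
    EE (sub.onWord w) (fun u => ENNReal.ofReal (g u)) =
      ENNReal.ofReal (Ex w.length fun s => g (flat s)) := by
  induction w generalizing g with
  | nil => unfold RandomSubst.onWord; rw [EE_pure]; rfl
  | cons c w ih =>
    unfold RandomSubst.onWord
    rw [EE_bind]
    have : ∀ s : List Bool, EE ((sub.onWord w).bind fun t => PMF.pure (s ++ t))
        (fun u => ENNReal.ofReal (g u)) =
        ENNReal.ofReal (Ex w.length fun t => g (s ++ flat t)) := by
      intro s
      rw [EE_bind]
      simp only [EE_pure]
      exact ih (fun t => g (s ++ t)) fun u => hg _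
    simp only [this]
    rw [EE_law, ← ENNReal.ofReal_mul (by linarith [p_lt]), ← ENNReal.ofReal_mul p_pos.le,
      ← ENNReal.ofReal_add]
    · rfl
    · refine mul_nonneg (by linarith [p_lt]) ?_
      have := Ex_mono w.length (g := fun _ => 0) (g' := fun t => g ([false] ++ flat t))
        fun s _ => hg _
      refine le_trans (le_of_eq ?_) this
      have := Ex_lin w.length 0 0 0 (fun _ => 0) (fun _ => 0)
      simpa using this.symm
    · refine mul_nonneg p_pos.le ?_
      have := Ex_mono w.length (g := fun _ => 0) (g' := fun t => g ([false, true] ++ flat t))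
        fun s _ => hg _
      refine le_trans (le_of_eq ?_) this
      have := Ex_lin w.length 0 0 0 (fun _ => 0) (fun _ => 0)
      simpa using this.symm

lemma support_onWord (w u : List Bool) (hu : sub.onWord w u ≠ 0) :
    ∃ s, u = flat s ∧ s.length = w.length := by
  induction w generalizing u with
  | nil =>
    unfold RandomSubst.onWord at hu
    have : u = [] := by
      by_contra h
      apply hu
      simp [h]
    exact ⟨[], this, rfl⟩
  | cons c w ih =>
    unfold RandomSubst.onWord at hu
    have h1 : u ∈ ((sub.law c).bind fun s => (sub.onWord w).bind fun t =>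
      PMF.pure (s ++ t)).support := hu
    rw [PMF.mem_support_bind_iff] at h1
    obtain ⟨s, hs, h2⟩ := h1
    rw [PMF.mem_support_bind_iff] at h2
    obtain ⟨t, ht, h3⟩ := h2
    rw [PMF.mem_support_pure_iff] at h3
    obtain ⟨r, hr, hr2⟩ := ih t ht
    have h4 : s ∈ (bern.map blk).support := hs
    rw [PMF.support_map] at h4
    obtain ⟨x, -, rfl⟩ := h4
    exact ⟨x :: r, by rw [h3, hr]; rfl, by simp [hr2]⟩

/-! ### Counting patterns at block boundaries -/

/-- Indicator of the event that `v` is a prefix of `u`. -/
noncomputable def B (v u : List Bool) : ℝ := if v.isPrefixOf u then 1 else 0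

lemma B_nonneg (v u : List Bool) : 0 ≤ B v u := by unfold B; split_ifs <;> norm_num
lemma B_le (v u : List Bool) : B v u ≤ 1 := by unfold B; split_ifs <;> norm_num
lemma B_cons (a : Bool) (v u : List Bool) : B (a :: v) (a :: u) = B v u := by
  unfold B; simp [List.isPrefixOf]
lemma B_tf (v u : List Bool) : B (true :: v) (false :: u) = 0 := by
  unfold B; simp [List.isPrefixOf]
lemma B_ft (v u : List Bool) : B (false :: v) (true :: u) = 0 := by
  unfold B; simp [List.isPrefixOf]
lemma B_cons_nil (a : Bool) (v : List Bool) : B (a :: v) [] = 0 := by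
  unfold B; simp [List.isPrefixOf]
lemma B_nil (u : List Bool) : B [] u = 1 := by
  unfold B; simp

lemma B_true_flat (v s : List Bool) : B (true :: v) (flat s) = 0 := by
  cases s with
  | nil => exact B_cons_nil _ _
  | cons x s => cases x <;> exact B_tf _ _

/-- The number of block boundaries at which `v` occurs. -/
noncomputable def cnt (v : List Bool) : List Bool → ℝ
  | [] => 0
  | true :: u => cnt v u
  | false :: u => cnt v u + B v (false :: u)

lemma cnt_flat (v : List Bool) (x : Bool) (s : List Bool) :
    cnt v (flat (x :: s)) = cnt v (flat s) + B v (flat (x :: s)) := by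
  cases x <;> rfl

lemma cnt_nil_flat (s : List Bool) : cnt [] (flat s) = s.length := by
  induction s with
  | nil => simp [flat, cnt]
  | cons x s ih => rw [cnt_flat, ih, B_nil]; simp

/-- The martingale. -/
noncomputable def M (v : List Bool) : List Bool → ℝ
  | [] => 0
  | x :: s => M v s + (B v (flat (x :: s)) -
      ((1 - p) * B v (flat (false :: s)) + p * B v (flat (true :: s))))

lemma Ex_M_sq (v : List Bool) (N : ℕ) : Ex N (fun s => M v s ^ 2) ≤ N := by
  induction N with
  | zero => simp [Ex, M]
  | succ N ih =>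
    have h1 := p_pos
    have h2 := p_lt
    have e : Ex (N + 1) (fun s => M v s ^ 2) =
        Ex N (fun s => M v s ^ 2 + (1 - p) * p * (B v (flat (true :: s)) - B v (flat (false :: s))) ^ 2) := by
      have e1 : ∀ g g' : List Bool → ℝ, (1 - p) * Ex N g + p * Ex N g' =
          Ex N (fun s => (1 - p) * g s + p * g' s) := by
        intro g g'
        have := Ex_lin N (1 - p) p 0 g g'
        simp only [add_zero] at this
        exact this.symm
      change (1 - p) * Ex N (fun s => M v (false :: s) ^ 2) + p * Ex N (fun s => M v (true :: s) ^ 2) = _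
      rw [e1]
      refine Ex_congr N fun s _ => ?_
      change (1 - p) * (M v s + (B v (flat (false :: s)) - _)) ^ 2 +
        p * (M v s + (B v (flat (true :: s)) - _)) ^ 2 = _
      ring
    rw [e]
    have h3 : Ex N (fun s => M v s ^ 2 +
        (1 - p) * p * (B v (flat (true :: s)) - B v (flat (false :: s))) ^ 2) ≤
        Ex N (fun s => 1 * M v s ^ 2 + 0 * M v s ^ 2 + 1) := by
      refine Ex_mono N fun s _ => ?_
      have b1 := B_nonneg v (flat (true :: s))
      have b2 := B_nonneg v (flat (false :: s))
      have b3 := B_le v (flat (true :: s))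
      have b4 := B_le v (flat (false :: s))
      have c1 : (B v (flat (true :: s)) - B v (flat (false :: s))) ^ 2 ≤ 1 := by nlinarith
      have c2 : (1 - p) * p ≤ 1 := by nlinarith
      have c3 : 0 ≤ (1 - p) * p := mul_nonneg (by linarith) h1.le
      nlinarith [sq_nonneg (B v (flat (true :: s)) - B v (flat (false :: s)))]
    rw [Ex_lin] at h3
    push_cast
    linarith

/-- The deviation `cnt v - κ * cnt v'`, where the pattern `v'` is `v` without its first block. -/
noncomputable def Dev : List Bool → List Bool → ℝ
  | false :: false :: v, u => cnt (false :: false :: v) u - (1 - p) * cnt (false :: v) u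
  | false :: true :: v, u => cnt (false :: true :: v) u - p * cnt v u
  | _, _ => 0

lemma Dev_ff (v s : List Bool) : |Dev (false :: false :: v) (flat s) -
    M (false :: false :: v) s| ≤ 1 := by
  have e : M (false :: false :: v) s = cnt (false :: false :: v) (flat s) -
      (1 - p) * (cnt (false :: v) (flat s) - B (false :: v) (flat s)) := by
    induction s with
    | nil => simp [M, flat, cnt, B_cons_nil]
    | cons x s ih =>
      rw [M, ih, cnt_flat, cnt_flat, flat_false, flat_true, B_cons, B_cons, B_ft]
      ring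
  rw [e]
  unfold Dev
  have h1 := p_pos
  have h2 := p_lt
  have b1 := B_nonneg (false :: v) (flat s)
  have b2 := B_le (false :: v) (flat s)
  rw [abs_le]
  constructor <;> nlinarith

lemma Dev_ft (v s : List Bool) : |Dev (false :: true :: v) (flat s) -
    M (false :: true :: v) s| ≤ 1 := by
  have e : M (false :: true :: v) s = cnt (false :: true :: v) (flat s) -
      p * (cnt v (flat s) - B v (flat s) + B v []) := by
    induction s with
    | nil => simp [M, flat, cnt]
    | cons x s ih =>
      rw [M, ih, cnt_flat, cnt_flat, flat_false, flat_true, B_cons, B_cons, B_cons, B_true_flat]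
      ring
  rw [e]
  unfold Dev
  have h1 := p_pos
  have h2 := p_lt
  have b1 := B_nonneg v (flat s)
  have b2 := B_le v (flat s)
  have b3 := B_nonneg v []
  have b4 := B_le v []
  rw [abs_le]
  constructor <;> nlinarith

lemma Dev_sq (v s : List Bool) : Dev v (flat s) ^ 2 ≤ 2 * M v s ^ 2 + 2 := by
  have key : |Dev v (flat s) - M v s| ≤ 1 → Dev v (flat s) ^ 2 ≤ 2 * M v s ^ 2 + 2 := by
    intro h
    rw [abs_le] at h
    nlinarith [sq_nonneg (Dev v (flat s) - 2 * M v s), h.1, h.2]
  match v with
  | false :: false :: v => exact key (Dev_ff v s)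
  | false :: true :: v => exact key (Dev_ft v s)
  | [] =>
    have h0 : Dev [] (flat s) = 0 := by simp [Dev]
    rw [h0]; nlinarith [sq_nonneg (M [] s)]
  | true :: v =>
    have h0 : Dev (true :: v) (flat s) = 0 := by simp [Dev]
    rw [h0]; nlinarith [sq_nonneg (M (true :: v) s)]
  | [false] =>
    have h0 : Dev [false] (flat s) = 0 := by simp [Dev]
    rw [h0]; nlinarith [sq_nonneg (M [false] s)]

lemma Ex_Dev (v : List Bool) (N : ℕ) : Ex N (fun s => Dev v (flat s) ^ 2 / cnt [] (flat s) ^ 2) ≤
    4 / N := by
  have h1 : Ex N (fun s => Dev v (flat s) ^ 2 / cnt [] (flat s) ^ 2) ≤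
      Ex N (fun s => 2 / (N : ℝ) ^ 2 * M v s ^ 2 + 0 * M v s ^ 2 + 2 / (N : ℝ) ^ 2) := by
    refine Ex_mono N fun s hs => ?_
    rw [cnt_nil_flat, hs]
    have := Dev_sq v s
    calc Dev v (flat s) ^ 2 / (N : ℝ) ^ 2 ≤ (2 * M v s ^ 2 + 2) / (N : ℝ) ^ 2 :=
          div_le_div_of_nonneg_right this (by positivity)
      _ = _ := by ring
  rw [Ex_lin] at h1
  refine h1.trans ?_
  have h2 := Ex_M_sq v N
  rcases Nat.eq_zero_or_pos N with h0 | h0
  · subst h0; simp
  · have hN : (1 : ℝ) ≤ N := by exact_mod_cast h0
    have h3 : 2 / (N : ℝ) ^ 2 * Ex N (fun s => M v s ^ 2) ≤ 2 / (N : ℝ) ^ 2 * N :=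
      mul_le_mul_of_nonneg_left h2 (by positivity)
    have h4 : 2 / (N : ℝ) ^ 2 * N = 2 / N := by field_simp
    have h5 : 2 / (N : ℝ) ^ 2 ≤ 2 / N := by
      apply div_le_div_of_nonneg_left (by norm_num) (by linarith)
      nlinarith
    have h6 : (4 : ℝ) / N = 2 / N + 2 / N := by ring
    linarith

/-- The number of blocks `ab`. -/
noncomputable def ones : List Bool → ℝ
  | [] => 0
  | x :: s => ones s + cond x 1 0

lemma ones_bounds (s : List Bool) : 0 ≤ ones s ∧ ones s ≤ s.length := by
  induction s with
  | nil => simp [ones]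
  | cons x s ih =>
    have : (0 : ℝ) ≤ cond x 1 0 ∧ cond x 1 0 ≤ (1 : ℝ) := by cases x <;> simp
    unfold ones
    push_cast [List.length_cons]
    constructor <;> linarith [ih.1, ih.2, this.1, this.2]

lemma length_flat (s : List Bool) : ((flat s).length : ℝ) = s.length + ones s := by
  induction s with
  | nil => simp [flat, ones]
  | cons x s ih =>
    cases x
    · rw [flat_false]
      simp only [List.length_cons, ones, cond_false]
      push_cast
      linarith
    · rw [flat_true]
      simp only [List.length_cons, ones, cond_true]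
      push_cast
      linarith

lemma Ex_ones (N : ℕ) : Ex N ones = p * N := by
  induction N with
  | zero => simp [Ex, ones]
  | succ N ih =>
    have e1 := Ex_lin N 1 0 0 ones ones
    have e2 := Ex_lin N 1 0 1 ones ones
    have e3 : Ex (N + 1) ones = (1 - p) * Ex N (fun s => 1 * ones s + 0 * ones s + 0) +
        p * Ex N (fun s => 1 * ones s + 0 * ones s + 1) := by
      change (1 - p) * Ex N (fun s => ones (false :: s)) + p * Ex N (fun s => ones (true :: s)) = _
      congr 2
      · refine Ex_congr N fun s _ => ?_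
        simp [ones]
      · refine Ex_congr N fun s _ => ?_
        simp [ones]
    rw [e3, e1, e2, ih]
    push_cast
    ring

lemma Ex_inv (N : ℕ) : Ex N (fun s => 1 / ((flat s).length : ℝ)) ≤ (1 - p / 2) * (1 / N) := by
  rcases Nat.eq_zero_or_pos N with h0 | h0
  · subst h0; simp [Ex, flat]
  have hN : (1 : ℝ) ≤ N := by exact_mod_cast h0
  have h1 : Ex N (fun s => 1 / ((flat s).length : ℝ)) ≤
      Ex N (fun s => (-1 / (2 * (N : ℝ) ^ 2)) * ones s + 0 * ones s + 1 / N) := by
    refine Ex_mono N fun s hs => ?_
    obtain ⟨b1, b2⟩ := ones_bounds s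
    rw [hs] at b2
    rw [length_flat, hs, div_le_iff₀ (by linarith)]
    have : (-1 / (2 * (N : ℝ) ^ 2) * ones s + 0 * ones s + 1 / N) * (N + ones s) =
        1 + (ones s * (N - ones s)) / (2 * (N : ℝ) ^ 2) := by
      field_simp
      ring
    rw [this]
    have : 0 ≤ (ones s * (N - ones s)) / (2 * (N : ℝ) ^ 2) := by
      apply div_nonneg (mul_nonneg b1 (by linarith)) (by positivity)
    linarith
  rw [Ex_lin, Ex_ones] at h1
  refine h1.trans (le_of_eq ?_)
  field_simp
  ring

/-! ### Almost sure convergence -/

lemma EE_iter_inv (c : Bool) (n : ℕ) :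
    EE (sub.iter c n) (fun w => ENNReal.ofReal (1 / (w.length : ℝ))) ≤
      ENNReal.ofReal ((1 - p / 2) ^ n) := by
  induction n with
  | zero =>
    unfold RandomSubst.iter
    rw [EE_pure]
    simp
  | succ n ih =>
    have hp : 0 ≤ 1 - p / 2 := by linarith [p_lt]
    unfold RandomSubst.iter
    rw [EE_bind]
    calc EE (sub.iter c n) (fun w => EE (sub.onWord w)
          fun u => ENNReal.ofReal (1 / (u.length : ℝ)))
        ≤ EE (sub.iter c n) (fun w => ENNReal.ofReal (1 - p / 2) *
          ENNReal.ofReal (1 / (w.length : ℝ))) := by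
          refine EE_mono _ fun w => ?_
          rw [EE_onWord w (fun u => 1 / (u.length : ℝ)) fun u => by positivity,
            ← ENNReal.ofReal_mul hp]
          exact ENNReal.ofReal_le_ofReal (Ex_inv _)
      _ = ENNReal.ofReal (1 - p / 2) *
          EE (sub.iter c n) (fun w => ENNReal.ofReal (1 / (w.length : ℝ))) := EE_const_mul _ _ _
      _ ≤ ENNReal.ofReal (1 - p / 2) * ENNReal.ofReal ((1 - p / 2) ^ n) := by gcongr
      _ = _ := by rw [← ENNReal.ofReal_mul hp, pow_succ']

lemma EE_iter_Dev (v : List Bool) (c : Bool) (n : ℕ) :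
    EE (sub.iter c (n + 1)) (fun u => ENNReal.ofReal (Dev v u ^ 2 / cnt [] u ^ 2)) ≤
      ENNReal.ofReal 4 * ENNReal.ofReal ((1 - p / 2) ^ n) := by
  rw [show sub.iter c (n + 1) = (sub.iter c n).bind sub.onWord from rfl, EE_bind]
  calc EE (sub.iter c n) (fun w => EE (sub.onWord w)
        fun u => ENNReal.ofReal (Dev v u ^ 2 / cnt [] u ^ 2))
      ≤ EE (sub.iter c n) (fun w => ENNReal.ofReal 4 * ENNReal.ofReal (1 / (w.length : ℝ))) := by
        refine EE_mono _ fun w => ?_
        rw [EE_onWord w (fun u => Dev v u ^ 2 / cnt [] u ^ 2) fun u => by positivity,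
          ← ENNReal.ofReal_mul (by norm_num), mul_one_div]
        exact ENNReal.ofReal_le_ofReal (Ex_Dev _ _)
    _ = ENNReal.ofReal 4 *
        EE (sub.iter c n) (fun w => ENNReal.ofReal (1 / (w.length : ℝ))) := EE_const_mul _ _ _
    _ ≤ _ := by gcongr; exact EE_iter_inv c n

section Process

variable {c : Bool} {Ω : Type} [MeasurableSpace Ω] {P : Measure Ω} {W : ℕ → Ω → List Bool}

lemma measurable_comp_W {ϑ : RandomSubst} (hW : IsIteration ϑ c P W) (n : ℕ)
    (g : List Bool → ℝ≥0∞) : Measurable fun ω => g (W n ω) := by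
  let _ : MeasurableSpace (List Bool) := ⊤
  have hm : Measurable (W n) := measurable_to_countable' fun w => (hW n w).1
  exact measurable_from_top.comp hm

lemma lintegral_W {ϑ : RandomSubst} (hW : IsIteration ϑ c P W) (n : ℕ)
    (g : List Bool → ℝ≥0∞) : ∫⁻ ω, g (W n ω) ∂P = EE (ϑ.iter c n) g := by
  let _ : MeasurableSpace (List Bool) := ⊤
  have hm : Measurable (W n) := measurable_to_countable' fun w => (hW n w).1
  rw [← lintegral_map (f := g) measurable_from_top hm, lintegral_countable']
  unfold EE
  refine tsum_congr fun w => ?_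
  rw [Measure.map_apply hm (measurableSet_singleton w), mul_comm]
  congr 1
  exact (hW n w).2

lemma ae_Dev (hW : IsIteration sub c P W) (v : List Bool) :
    ∀ᵐ ω ∂P, Tendsto (fun n => Dev v (W (n + 1) ω) / cnt [] (W (n + 1) ω)) atTop (𝓝 0) := by
  have hp : 0 ≤ 1 - p / 2 := by linarith [p_lt]
  have hp1 : 1 - p / 2 < 1 := by linarith [p_pos]
  set g : List Bool → ℝ≥0∞ := fun u => ENNReal.ofReal (Dev v u ^ 2 / cnt [] u ^ 2) with hg
  have h1 : ∫⁻ ω, ∑' n, g (W (n + 1) ω) ∂P ≠ ∞ := by
    rw [lintegral_tsum fun n => (measurable_comp_W hW (n + 1) g).aemeasurable]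
    refine ne_top_of_le_ne_top ?_ (ENNReal.tsum_le_tsum fun n => ?_)
      (b := ∑' n, ENNReal.ofReal 4 * ENNReal.ofReal ((1 - p / 2) ^ n))
    · rw [ENNReal.tsum_mul_left, ← ENNReal.ofReal_tsum_of_nonneg (fun n => by positivity)
        (summable_geometric_of_lt_one hp hp1)]
      exact ENNReal.mul_ne_top ENNReal.ofReal_ne_top ENNReal.ofReal_ne_top
    · rw [lintegral_W hW (n + 1) g]
      exact EE_iter_Dev v c n
  have h2 : ∀ᵐ ω ∂P, ∑' n, g (W (n + 1) ω) < ∞ :=
    ae_lt_top (Measurable.tsum fun n => measurable_comp_W hW (n + 1) g) h1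
  filter_upwards [h2] with ω hω
  have h3 := ENNReal.tendsto_atTop_zero_of_tsum_ne_top hω.ne
  have h4 : Tendsto (fun n => (g (W (n + 1) ω)).toReal) atTop (𝓝 0) := by
    have := (ENNReal.tendsto_toReal (ENNReal.zero_ne_top)).comp h3
    simpa [Function.comp_def] using this
  have h5 : Tendsto (fun n => √((g (W (n + 1) ω)).toReal)) atTop (𝓝 0) := by
    have := (Real.continuous_sqrt.tendsto 0).comp h4
    simpa [Function.comp_def] using this
  rw [tendsto_zero_iff_abs_tendsto_zero]
  refine h5.congr fun n => ?_
  simp only [hg, Function.comp_apply]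
  rw [ENNReal.toReal_ofReal (by positivity), ← div_pow, Real.sqrt_sq_eq_abs]

lemma iter_support (c : Bool) (n : ℕ) (u : List Bool) (hu : sub.iter c n u ≠ 0) :
    u ≠ [] ∧ (1 ≤ n → ∃ s, u = flat s ∧ s ≠ []) := by
  induction n generalizing u with
  | zero =>
    unfold RandomSubst.iter at hu
    have : u = [c] := by
      by_contra h
      apply hu
      simp [h]
    subst this
    exact ⟨by simp, by omega⟩
  | succ n ih =>
    have h1 : u ∈ ((sub.iter c n).bind sub.onWord).support := hu
    rw [PMF.mem_support_bind_iff] at h1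
    obtain ⟨w, hw, h2⟩ := h1
    obtain ⟨s, hs, hs2⟩ := support_onWord w u h2
    have h3 := (ih w hw).1
    have h4 : s ≠ [] := by
      rintro rfl
      apply h3
      rw [← List.length_eq_zero_iff, ← hs2]
      rfl
    refine ⟨?_, fun _ => ⟨s, hs, h4⟩⟩
    rw [hs]
    cases s with
    | nil => exact absurd rfl h4
    | cons x s => cases x <;> simp [flat, blk]

lemma ae_flat (hW : IsIteration sub c P W) :
    ∀ᵐ ω ∂P, ∀ n, ∃ s, W (n + 1) ω = flat s ∧ s ≠ [] := by
  rw [ae_all_iff]
  intro n
  have h1 : ∀ᵐ ω ∂P, ∀ u : List Bool, W (n + 1) ω = u → sub.iter c (n + 1) u ≠ 0 := by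
    rw [ae_all_iff]
    intro u
    by_cases hu : sub.iter c (n + 1) u = 0
    · have h2 := (hW (n + 1) u).2
      rw [hu] at h2
      have h3 : ∀ᵐ ω ∂P, ¬ (W (n + 1) ω = u) := by
        rw [ae_iff]
        simpa using h2
      filter_upwards [h3] with ω hω h
      exact absurd h hω
    · exact Eventually.of_forall fun ω _ => hu
  filter_upwards [h1] with ω hω
  exact (iter_support c (n + 1) _ (hω _ rfl)).2 (by omega)

end Process

lemma cnt_true (v u : List Bool) : cnt (true :: v) u = 0 := by
  induction u with
  | nil => rfl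
  | cons x u ih =>
    cases x
    · change cnt (true :: v) u + B (true :: v) (false :: u) = 0
      rw [ih, B_tf, add_zero]
    · exact ih

lemma cnt_false (u : List Bool) : cnt [false] u = cnt [] u := by
  induction u with
  | nil => rfl
  | cons x u ih =>
    cases x
    · change cnt [false] u + B [false] (false :: u) = cnt [] u + B [] (false :: u)
      rw [ih, B_cons, B_nil, B_nil]
    · exact ih

lemma occ_false (v u : List Bool) : (occ (false :: v) u : ℝ) = cnt (false :: v) u := by
  induction u with
  | nil => simp [occ, cnt]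
  | cons x u ih =>
    cases x
    · unfold occ
      push_cast
      rw [ih]
      change _ = cnt (false :: v) u + B (false :: v) (false :: u)
      unfold B
      simp
    · unfold occ
      push_cast
      rw [ih]
      change _ = cnt (false :: v) u
      simp [List.isPrefixOf]

lemma occ_true (v s : List Bool) :
    (occ (true :: v) (flat s) : ℝ) = cnt (false :: true :: v) (flat s) := by
  induction s with
  | nil => simp [occ, cnt, flat]
  | cons x s ih =>
    cases x
    · rw [flat_false]
      change ((occ (true :: v) (flat s) + _ : ℕ) : ℝ) =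
        cnt (false :: true :: v) (flat s) + B (false :: true :: v) (false :: flat s)
      rw [B_cons, B_true_flat, ← ih]
      simp [List.isPrefixOf]
    · rw [flat_true]
      change ((occ (true :: v) (flat s) + _ + _ : ℕ) : ℝ) =
        cnt (false :: true :: v) (flat s) + B (false :: true :: v) (false :: true :: flat s)
      rw [B_cons, B_cons, ← ih]
      unfold B
      simp [List.isPrefixOf]

lemma cnt_ones (s : List Bool) : cnt [false, true] (flat s) = ones s := by
  induction s with
  | nil => rfl
  | cons x s ih =>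
    rw [cnt_flat, ih]
    cases x
    · rw [flat_false, B_cons, B_true_flat]; simp [ones]
    · rw [flat_true, B_cons, B_cons, B_nil]; simp [ones]

/-- The limits of `cnt v / cnt []`. -/
noncomputable def cc : List Bool → ℝ
  | [] => 1
  | true :: _ => 0
  | false :: v => chain false v

lemma chain_true (v : List Bool) : chain true v = cc v := by
  match v with
  | [] => rfl
  | true :: v => simp [chain, cc, trans]
  | false :: v => simp [chain, cc, trans]

lemma limit_c {u : ℕ → List Bool} (hu : ∀ n, ∃ s, u n = flat s ∧ s ≠ [])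
    (hD : ∀ v, Tendsto (fun n => Dev v (u n) / cnt [] (u n)) atTop (𝓝 0)) :
    ∀ v, Tendsto (fun n => cnt v (u n) / cnt [] (u n)) atTop (𝓝 (cc v))
  | [] => by
    refine Tendsto.congr (fun n => ?_) tendsto_const_nhds
    obtain ⟨s, hs, hs2⟩ := hu n
    rw [hs, cnt_nil_flat]
    have : s.length ≠ 0 := by rwa [Ne, List.length_eq_zero_iff]
    have : (s.length : ℝ) ≠ 0 := by exact_mod_cast this
    rw [div_self this]; rfl
  | true :: v => by
    refine Tendsto.congr (fun n => ?_) tendsto_const_nhds
    rw [cnt_true, zero_div]; rfl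
  | [false] => by
    have := limit_c hu hD []
    refine this.congr fun n => ?_
    rw [cnt_false]
  | false :: false :: v => by
    have h1 := limit_c hu hD (false :: v)
    have h2 := (hD (false :: false :: v)).add (h1.const_mul (1 - p))
    have e : cc (false :: false :: v) = 0 + (1 - p) * cc (false :: v) := by
      rw [one_sub_p]; simp [cc, chain, trans]
    rw [e]
    refine h2.congr fun n => ?_
    unfold Dev
    ring
  | false :: true :: v => by
    have h1 := limit_c hu hD v
    have h2 := (hD (false :: true :: v)).add (h1.const_mul p)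
    have e : cc (false :: true :: v) = 0 + p * cc v := by
      rw [← chain_true v]
      change trans false true * chain true v = _
      simp only [trans, p]
      ring
    rw [e]
    refine h2.congr fun n => ?_
    unfold Dev
    ring

lemma limit_occ {u : ℕ → List Bool} (hu : ∀ n, ∃ s, u n = flat s ∧ s ≠ [])
    (hD : ∀ v, Tendsto (fun n => Dev v (u n) / cnt [] (u n)) atTop (𝓝 0)) (v : List Bool)
    (hv : v ≠ []) :
    Tendsto (fun n => (occ v (u n) : ℝ) / (u n).length) atTop (𝓝 (parry v)) := by
  have hlen : Tendsto (fun n => ((u n).length : ℝ) / cnt [] (u n)) atTop (𝓝 (1 + p)) := by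
    have h1 := (limit_c hu hD []).add (limit_c hu hD [false, true])
    have e : cc [] + cc [false, true] = 1 + p := by
      simp [cc, chain, trans, p]
    rw [e] at h1
    refine h1.congr fun n => ?_
    obtain ⟨s, hs, hs2⟩ := hu n
    rw [hs, length_flat, cnt_ones, cnt_nil_flat]
    ring
  have hne : ∀ n, cnt [] (u n) ≠ 0 := by
    intro n
    obtain ⟨s, hs, hs2⟩ := hu n
    rw [hs, cnt_nil_flat]
    have : s.length ≠ 0 := by rwa [Ne, List.length_eq_zero_iff]
    exact_mod_cast this
  have hpp := p_pos
  have key : ∀ (w : List Bool), (∀ n, (occ v (u n) : ℝ) = cnt w (u n)) →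
      Tendsto (fun n => (occ v (u n) : ℝ) / (u n).length) atTop (𝓝 (cc w / (1 + p))) := by
    intro w hw
    have h1 := (limit_c hu hD w).div hlen (by positivity)
    refine h1.congr fun n => ?_
    rw [hw]
    have := hne n
    simp only [Pi.div_apply]
    rw [div_div_div_cancel_right₀ this]
  match v with
  | [] => exact absurd rfl hv
  | false :: v =>
    have h1 := key (false :: v) fun n => occ_false v _
    have e : parry (false :: v) = cc (false :: v) / (1 + p) := by
      change init false * chain false v = chain false v / (1 + p)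
      rw [init_false]; ring
    rw [e]; exact h1
  | true :: v =>
    have h1 := key (false :: true :: v) fun n => by
      obtain ⟨s, hs, hs2⟩ := hu n
      rw [hs]; exact occ_true v s
    have e : parry (true :: v) = cc (false :: true :: v) / (1 + p) := by
      change init true * chain true v = trans false true * chain true v / (1 + p)
      rw [init_true]
      simp only [trans, p]
      ring
    rw [e]; exact h1

lemma ae_limit {c : Bool} {Ω : Type} [MeasurableSpace Ω] {P : Measure Ω} {W : ℕ → Ω → List Bool}
    (hW : IsIteration sub c P W) (v : List Bool) (hv : v ≠ []) :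
    ∀ᵐ ω ∂P, Tendsto (fun n => (occ v (W n ω) : ℝ) / (W n ω).length) atTop (𝓝 (parry v)) := by
  have h1 : ∀ᵐ ω ∂P, ∀ v, Tendsto (fun n => Dev v (W (n + 1) ω) / cnt [] (W (n + 1) ω)) atTop
      (𝓝 0) := by
    rw [ae_all_iff]
    exact fun v => ae_Dev hW v
  filter_upwards [h1, ae_flat hW] with ω h2 h3
  have := limit_occ h3 h2 v hv
  exact (tendsto_add_atTop_iff_nat 1).1 this

/-! ### Construction of the Parry measure -/

/-- The Bernoulli measure. -/
noncomputable def PB : Measure (ℤ → Bool) := Measure.infinitePi fun _ => bern.toMeasure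

instance : IsProbabilityMeasure PB := by unfold PB; infer_instance

lemma bern_meas (d : Bool) : bern.toMeasure {d} = bern d := by
  rw [PMF.toMeasure_apply_singleton _ _ (measurableSet_singleton d)]

lemma measurable_shift : Measurable shift :=
  measurable_pi_iff.2 fun i => measurable_pi_apply (i + 1)

lemma PB_shift : MeasurePreserving shift PB PB := by
  refine ⟨measurable_shift, ?_⟩
  refine Measure.eq_infinitePi _ fun s t ht => ?_
  rw [Measure.map_apply measurable_shift
    (MeasurableSet.pi s.countable_toSet fun i _ => ht i)]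
  have : shift ⁻¹' (Set.pi s t) = Set.pi (s.image (· + 1) : Finset ℤ) fun i => t (i - 1) := by
    ext x
    simp only [Set.mem_preimage, Set.mem_pi, Finset.coe_image, Set.mem_image,
      forall_exists_index, and_imp, forall_apply_eq_imp_iff₂, shift, add_sub_cancel_right]
  rw [this]
  unfold PB
  rw [Measure.infinitePi_pi _ fun i _ => ht (i - 1),
    Finset.prod_image fun a _ b _ h => by simpa using h]
  simp

/-- The σ-algebra of the coordinates before `k`. -/
@[instance_reducible] def past (k : ℤ) : MeasurableSpace (ℤ → Bool) :=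
  ⨆ i ∈ Set.Iio k, MeasurableSpace.comap (fun ω : ℤ → Bool => ω i) ⊤

lemma comap_le_pi (i : ℤ) : MeasurableSpace.comap (fun ω : ℤ → Bool => ω i) ⊤ ≤
    (MeasurableSpace.pi : MeasurableSpace (ℤ → Bool)) := by
  have : Measurable fun ω : ℤ → Bool => ω i := measurable_pi_apply i
  exact this.comap_le

lemma past_le (k : ℤ) : past k ≤ MeasurableSpace.pi :=
  iSup₂_le fun i _ => comap_le_pi i

lemma past_mono {j k : ℤ} (h : j ≤ k) : past j ≤ past k :=
  biSup_mono fun _ hi => lt_of_lt_of_le hi h

lemma past_coord {i k : ℤ} (h : i < k) (d : Bool) :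
    MeasurableSet[past k] {ω : ℤ → Bool | ω i = d} := by
  have h1 : MeasurableSpace.comap (fun ω : ℤ → Bool => ω i) ⊤ ≤ past k :=
    le_iSup₂_of_le i h le_rfl
  exact h1 _ ⟨{d}, trivial, rfl⟩

lemma indep_step (k : ℤ) {A : Set (ℤ → Bool)} (hA : MeasurableSet[past k] A) (d : Bool) :
    PB (A ∩ {ω | ω k = d}) = PB A * bern d := by
  have h1 : ProbabilityTheory.iIndepFun (fun (i : ℤ) (ω : ℤ → Bool) => ω i) PB :=
    ProbabilityTheory.iIndepFun_infinitePi (X := fun _ => id) fun _ => measurable_id
  have h2 := ProbabilityTheory.indep_iSup_of_disjoint (S := Set.Iio k) (T := {k})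
    (m := fun i => MeasurableSpace.comap (fun ω : ℤ → Bool => ω i) ⊤) comap_le_pi h1 (by simp)
  have h0 : MeasurableSpace.comap (fun ω : ℤ → Bool => ω k) ⊤ ≤
      ⨆ i ∈ ({k} : Set ℤ), MeasurableSpace.comap (fun ω : ℤ → Bool => ω i) ⊤ :=
    le_iSup₂_of_le k (Set.mem_singleton k) le_rfl
  have h3 := (ProbabilityTheory.Indep_iff _ _ _).1 h2 A {ω | ω k = d} hA
    (h0 _ ⟨{d}, trivial, rfl⟩)
  rw [h3]
  congr 1
  have h4 : {ω : ℤ → Bool | ω k = d} = Set.pi ({k} : Finset ℤ) fun _ => {d} := by
    ext x; simp
  rw [h4]
  unfold PB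
  rw [Measure.infinitePi_pi _ fun i _ => measurableSet_singleton d, Finset.prod_singleton,
    bern_meas]

/-- The run of `true` ending at `i` has length exactly `r`. -/
def E (i : ℤ) (r : ℕ) : Set (ℤ → Bool) := {ω | ω (i - r) = false ∧ ∀ s : ℕ, s < r → ω (i - s) = true}

lemma E_past (i : ℤ) (r : ℕ) : MeasurableSet[past (i + 1)] (E i r) := by
  have : E i r = {ω | ω (i - r) = false} ∩ ⋂ s : ℕ, ⋂ (_ : s < r), {ω | ω (i - s) = true} := by
    ext ω; simp [E]
  rw [this]
  refine @MeasurableSet.inter _ (past (i + 1)) _ _ (past_coord (by omega) _) ?_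
  refine @MeasurableSet.iInter _ _ (past (i + 1)) _ _ fun s => ?_
  refine @MeasurableSet.iInter _ _ (past (i + 1)) _ _ fun _ => ?_
  exact past_coord (by omega) _

open Classical in
/-- The factor map. -/
noncomputable def Φ (ω : ℤ → Bool) : ℤ → Bool := fun i => decide (∃ r, Odd r ∧ ω ∈ E i r)

lemma Φ_true (ω : ℤ → Bool) (i : ℤ) : Φ ω i = true ↔ ∃ r, Odd r ∧ ω ∈ E i r := by
  unfold Φ; simp

lemma Φ_past_true (i : ℤ) : MeasurableSet[past (i + 1)] {ω | Φ ω i = true} := by
  have : {ω | Φ ω i = true} = ⋃ r : ℕ, ⋃ (_ : Odd r), E i r := by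
    ext ω; simp only [Set.mem_ofPred_eq, Φ_true, Set.mem_iUnion, exists_prop]
  rw [this]
  refine @MeasurableSet.iUnion _ _ (past (i + 1)) _ _ fun s => ?_
  refine @MeasurableSet.iUnion _ _ (past (i + 1)) _ _ fun _ => ?_
  exact E_past i s

lemma Φ_past (i : ℤ) (d : Bool) : MeasurableSet[past (i + 1)] {ω | Φ ω i = d} := by
  cases d
  · have : {ω | Φ ω i = false} = {ω | Φ ω i = true}ᶜ := by
      ext ω; simp
    rw [this]
    exact @MeasurableSet.compl _ _ (past (i + 1)) (Φ_past_true i)
  · exact Φ_past_true i

lemma measurable_Φ : Measurable Φ := by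
  refine measurable_pi_iff.2 fun i => ?_
  refine measurable_to_countable' fun d => ?_
  exact past_le _ _ (Φ_past i d)

lemma E_shift (ω : ℤ → Bool) (i : ℤ) (r : ℕ) : shift ω ∈ E i r ↔ ω ∈ E (i + 1) r := by
  unfold E shift
  simp only [Set.mem_ofPred_eq]
  have : ∀ s : ℕ, i - s + 1 = i + 1 - s := fun s => by ring
  simp only [this]

lemma Φ_shift (ω : ℤ → Bool) : Φ (shift ω) = shift (Φ ω) := by
  funext i
  rw [Bool.eq_iff_iff]
  change Φ (shift ω) i = true ↔ Φ ω (i + 1) = true
  simp only [Φ_true, E_shift]

/-- All runs are finite. -/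
def Good (ω : ℤ → Bool) : Prop := ∀ i : ℤ, ∃ r : ℕ, ω (i - r) = false

lemma exists_E {ω : ℤ → Bool} (hω : Good ω) (i : ℤ) : ∃ r, ω ∈ E i r := by
  classical
  refine ⟨Nat.find (hω i), Nat.find_spec (hω i), fun s hs => ?_⟩
  have := Nat.find_min (hω i) hs
  simpa using this

lemma E_unique {ω : ℤ → Bool} {i : ℤ} {r r' : ℕ} (h : ω ∈ E i r) (h' : ω ∈ E i r') : r = r' := by
  rcases lt_trichotomy r r' with hlt | heq | hlt
  · have := h'.2 r hlt
    rw [h.1] at this
    exact absurd this (by simp)
  · exact heq
  · have := h.2 r' hlt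
    rw [h'.1] at this
    exact absurd this (by simp)

lemma E_succ (ω : ℤ → Bool) (i : ℤ) (r : ℕ) : ω ∈ E (i + 1) (r + 1) ↔ ω (i + 1) = true ∧ ω ∈ E i r := by
  unfold E
  simp only [Set.mem_ofPred_eq]
  constructor
  · rintro ⟨h1, h2⟩
    refine ⟨?_, ?_, fun s hs => ?_⟩
    · have := h2 0 (by omega); simpa using this
    · rw [← h1]; congr 1; push_cast; ring
    · have := h2 (s + 1) (by omega)
      rw [← this]; congr 1; push_cast; ring
  · rintro ⟨h0, h1, h2⟩
    refine ⟨?_, fun s hs => ?_⟩
    · rw [← h1]; congr 1; push_cast; ring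
    · rcases s with _ | s
      · simpa using h0
      · rw [← h2 s (by omega)]; congr 1; push_cast; ring

lemma Φ_succ {ω : ℤ → Bool} (hω : Good ω) (i : ℤ) :
    Φ ω (i + 1) = true ↔ ω (i + 1) = true ∧ Φ ω i = false := by
  obtain ⟨r0, hr0⟩ := exists_E hω i
  have hf : Φ ω i = false ↔ ¬ Odd r0 := by
    rw [← Bool.not_eq_true, Φ_true, not_iff_not]
    constructor
    · rintro ⟨r, hr, hr2⟩
      rwa [← E_unique hr2 hr0]
    · intro h; exact ⟨r0, h, hr0⟩
  rw [hf, Φ_true]
  constructor
  · rintro ⟨r, hr, hr2⟩
    rcases r with _ | r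
    · exact absurd hr (by decide)
    · rw [E_succ] at hr2
      refine ⟨hr2.1, ?_⟩
      rw [← E_unique hr2.2 hr0]
      intro ho
      rcases ho with ⟨a, ha⟩
      rcases hr with ⟨b, hb⟩
      omega
  · rintro ⟨h1, h2⟩
    refine ⟨r0 + 1, ?_, (E_succ _ _ _).2 ⟨h1, hr0⟩⟩
    rw [Nat.not_odd_iff_even] at h2
    exact h2.add_one

/-- The set of points all of whose coordinates up to `i` are `true`. -/
def T (i : ℤ) : Set (ℤ → Bool) := {ω | ∀ r : ℕ, ω (i - r) = true}

lemma T_past (i : ℤ) : MeasurableSet[past (i + 1)] (T i) := by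
  have : T i = ⋂ s : ℕ, {ω | ω (i - s) = true} := by
    ext ω; simp [T]
  rw [this]
  exact @MeasurableSet.iInter _ _ (past (i + 1)) _ _ fun s => past_coord (by omega) _

lemma PB_T (i : ℤ) : PB (T i) = 0 := by
  have h1 : T (i + 1) = T i ∩ {ω | ω (i + 1) = true} := by
    ext ω
    simp only [T, Set.mem_ofPred_eq, Set.mem_inter_iff]
    constructor
    · intro h
      refine ⟨fun r => ?_, by simpa using h 0⟩
      rw [← h (r + 1)]; congr 1; push_cast; ring
    · rintro ⟨h, h0⟩ r
      rcases r with _ | r
      · simpa using h0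
      · rw [← h r]; congr 1; push_cast; ring
  have h2 : PB (T (i + 1)) = PB (T i) := by
    rw [← PB_shift.measure_preimage (past_le _ _ (T_past i)).nullMeasurableSet]
    congr 1
    ext ω
    simp only [T, Set.mem_ofPred_eq, Set.mem_preimage, shift]
    have : ∀ s : ℕ, i - s + 1 = i + 1 - s := fun s => by ring
    simp only [this]
  rw [h1, indep_step (i + 1) (T_past i)] at h2
  have h3 : PB (T i) ≠ ∞ := measure_ne_top _ _
  have h4 : bern true = ENNReal.ofReal p := rfl
  rw [h4] at h2
  have h5 : (PB (T i)).toReal * p = (PB (T i)).toReal := by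
    have := congrArg ENNReal.toReal h2
    rwa [ENNReal.toReal_mul, ENNReal.toReal_ofReal p_pos.le] at this
  have h6 : (PB (T i)).toReal = 0 := by
    have := p_lt
    nlinarith
  exact (ENNReal.toReal_eq_zero_iff _).1 h6 |>.resolve_right h3

lemma ae_good : ∀ᵐ ω ∂PB, Good ω := by
  unfold Good
  rw [ae_all_iff]
  intro i
  rw [ae_iff]
  refine measure_mono_null (fun ω hω => ?_) (PB_T i)
  simp only [Set.mem_ofPred_eq, not_exists, Bool.not_eq_false] at hω
  exact hω

/-- The cylinder probabilities, given the past. -/
lemma chain_step (v : List Bool) : ∀ (c : Bool) (k : ℤ) (A : Set (ℤ → Bool)),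
    MeasurableSet[past k] A → (∀ ω ∈ A, Φ ω (k - 1) = c) →
    PB (A ∩ Φ ⁻¹' (cyl k v)) = PB A * ENNReal.ofReal (chain c v) := by
  induction v with
  | nil =>
    intro c k A hA hc
    have : cyl k [] = univ := by ext x; simp [cyl]
    rw [this]
    simp [chain]
  | cons d v ih =>
    intro c k A hA hc
    set A' := A ∩ {ω | Φ ω k = d} with hA'
    have h1 : A ∩ Φ ⁻¹' (cyl k (d :: v)) = A' ∩ Φ ⁻¹' (cyl (k + 1) v) := by
      ext ω
      simp only [hA', cyl, Set.mem_inter_iff, Set.mem_preimage, Set.mem_ofPred_eq, List.length_cons,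
        and_assoc]
      refine and_congr_right fun _ => ?_
      constructor
      · intro h
        refine ⟨by simpa using h 0 (by omega), fun i hi => ?_⟩
        have := h (i + 1) (by omega)
        rw [List.getElem_cons_succ] at this
        rw [← this]; congr 1; push_cast; ring
      · rintro ⟨h0, h⟩ i hi
        rcases i with _ | i
        · simpa using h0
        · rw [List.getElem_cons_succ, ← h i (by omega)]; congr 1; push_cast; ring
    have hm : MeasurableSet[past (k + 1)] A' :=
      @MeasurableSet.inter _ (past (k + 1)) _ _ (past_mono (by omega) _ hA) (Φ_past k d)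
    rw [h1, ih d (k + 1) A' hm fun ω hω => by
      rw [add_sub_cancel_right]; exact hω.2]
    have h2 : PB A' = PB A * ENNReal.ofReal (trans c d) := by
      have hk : ∀ ω, Good ω → (Φ ω k = true ↔ ω k = true ∧ Φ ω (k - 1) = false) := by
        intro ω hω
        have := Φ_succ hω (k - 1)
        rwa [sub_add_cancel] at this
      cases c
      · have e1 : PB A' = PB (A ∩ {ω | ω k = d}) := by
          refine measure_congr ?_
          filter_upwards [ae_good] with ω hω
          apply propext
          change (ω ∈ A ∧ Φ ω k = d) ↔ (ω ∈ A ∧ ω k = d)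
          refine and_congr_right fun hωA => ?_
          have h3 := hk ω hω
          rw [hc ω hωA] at h3
          simp only [and_true] at h3
          rw [Bool.eq_iff_iff, Bool.eq_iff_iff (a := ω k), h3]
        rw [e1, indep_step k hA]
        congr 1
        cases d
        · change ENNReal.ofReal (1 - p) = ENNReal.ofReal τ⁻¹
          rw [one_sub_p]
        · rfl
      · cases d
        · have e1 : PB A' = PB A := by
            refine measure_congr ?_
            filter_upwards [ae_good] with ω hω
            apply propext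
            change (ω ∈ A ∧ Φ ω k = false) ↔ ω ∈ A
            refine and_iff_left_of_imp fun hωA => ?_
            have h3 := hk ω hω
            rw [hc ω hωA] at h3
            simpa using h3
          rw [e1]
          simp [trans]
        · have e1 : PB A' = PB ∅ := by
            refine measure_congr ?_
            filter_upwards [ae_good] with ω hω
            apply propext
            change (ω ∈ A ∧ Φ ω k = true) ↔ False
            rw [iff_false]
            rintro ⟨hωA, h4⟩
            have h3 := hk ω hω
            rw [hc ω hωA, h4] at h3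
            simp at h3
          rw [e1]
          simp [trans]
    have h5 : 0 ≤ trans c d := by
      have := τ_gt
      cases c <;> cases d <;> simp only [trans] <;> positivity
    rw [h2, mul_assoc, ← ENNReal.ofReal_mul h5]
    rfl

lemma PB_Φ_true (k : ℤ) : PB {ω | Φ ω k = true} = ENNReal.ofReal (p / (1 + p)) := by
  have hstat : PB {ω | Φ ω (k + 1) = true} = PB {ω | Φ ω k = true} := by
    rw [← PB_shift.measure_preimage (past_le _ _ (Φ_past k true)).nullMeasurableSet]
    congr 1
    ext ω
    simp only [Set.mem_preimage, Set.mem_ofPred_eq, Φ_shift]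
    rfl
  have h1 : PB {ω | Φ ω (k + 1) = true} = PB ({ω | Φ ω k = false} ∩ {ω | ω (k + 1) = true}) := by
    refine measure_congr ?_
    filter_upwards [ae_good] with ω hω
    apply propext
    change Φ ω (k + 1) = true ↔ (Φ ω k = false ∧ ω (k + 1) = true)
    rw [Φ_succ hω, and_comm]
  rw [h1, indep_step (k + 1) (Φ_past k false)] at hstat
  have h2 : {ω | Φ ω k = false} = {ω | Φ ω k = true}ᶜ := by
    ext ω; simp
  rw [h2, prob_compl_eq_one_sub (past_le _ _ (Φ_past k true))] at hstat
  have h4 : bern true = ENNReal.ofReal p := rfl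
  rw [h4] at hstat
  have h3 : PB {ω | Φ ω k = true} ≠ ∞ := measure_ne_top _ _
  have h5 : PB {ω | Φ ω k = true} ≤ 1 := prob_le_one
  have h6 := congrArg ENNReal.toReal hstat
  rw [ENNReal.toReal_mul, ENNReal.toReal_ofReal p_pos.le, ENNReal.toReal_sub_of_le h5 (by simp),
    ENNReal.toReal_one] at h6
  have hp := p_pos
  rw [← ENNReal.ofReal_toReal h3]
  congr 1
  rw [eq_div_iff (by linarith)]
  linarith

lemma PB_Φ (k : ℤ) (d : Bool) : PB {ω | Φ ω k = d} = ENNReal.ofReal (init d) := by
  have hp := p_pos
  cases d
  · have h2 : {ω | Φ ω k = false} = {ω | Φ ω k = true}ᶜ := by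
      ext ω; simp
    rw [h2, prob_compl_eq_one_sub (past_le _ _ (Φ_past k true)), PB_Φ_true, init_false,
      ← ENNReal.ofReal_one, ← ENNReal.ofReal_sub _ (by positivity)]
    congr 1
    field_simp
    ring
  · rw [PB_Φ_true, init_true]

/-- The Parry measure. -/
noncomputable def μP : Measure (ℤ → Bool) := PB.map Φ

lemma measurableSet_cyl (k : ℤ) (v : List Bool) : MeasurableSet (cyl k v) := by
  have : cyl k v = ⋂ (i : ℕ), ⋂ (hi : i < v.length), {x : ℤ → Bool | x (k + i) = v[i]} := by
    ext x; simp [cyl]
  rw [this]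
  refine MeasurableSet.iInter fun i => MeasurableSet.iInter fun hi => ?_
  exact measurable_pi_apply (k + i) (measurableSet_singleton _)

lemma isParry_μP : IsParry μP := by
  refine ⟨Measure.isProbabilityMeasure_map measurable_Φ.aemeasurable, fun k v => ?_⟩
  unfold μP
  rw [Measure.map_apply measurable_Φ (measurableSet_cyl k v)]
  cases v with
  | nil =>
    have : cyl k [] = univ := by ext x; simp [cyl]
    rw [this]
    simp [parry]
  | cons d v =>
    have h1 : Φ ⁻¹' (cyl k (d :: v)) = {ω | Φ ω k = d} ∩ Φ ⁻¹' (cyl (k + 1) v) := by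
      ext ω
      simp only [cyl, Set.mem_inter_iff, Set.mem_preimage, Set.mem_ofPred_eq, List.length_cons]
      constructor
      · intro h
        refine ⟨by simpa using h 0 (by omega), fun i hi => ?_⟩
        have := h (i + 1) (by omega)
        rw [List.getElem_cons_succ] at this
        rw [← this]; congr 1; push_cast; ring
      · rintro ⟨h0, h⟩ i hi
        rcases i with _ | i
        · simpa using h0
        · rw [List.getElem_cons_succ, ← h i (by omega)]; congr 1; push_cast; ring
    rw [h1, chain_step v d (k + 1) _ (Φ_past k d) fun ω hω => by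
      rw [add_sub_cancel_right]; exact hω, PB_Φ, ← ENNReal.ofReal_mul]
    · rfl
    · have := p_pos
      cases d
      · rw [init_false]; positivity
      · rw [init_true]; positivity

lemma μP_shift : MeasurePreserving shift μP μP := by
  refine ⟨measurable_shift, ?_⟩
  unfold μP
  rw [Measure.map_map measurable_shift measurable_Φ]
  have : shift ∘ Φ = Φ ∘ shift := by
    funext ω; exact (Φ_shift ω).symm
  rw [this, ← Measure.map_map measurable_Φ measurable_shift, PB_shift.map_eq]

/-! ### The result -/

lemma law_ne_zero (c b : Bool) : sub.law c (blk b) ≠ 0 := by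
  have h : blk b ∈ (bern.map blk).support := by
    rw [PMF.support_map]
    refine ⟨b, ?_, rfl⟩
    rw [PMF.mem_support_iff]
    have h1 := p_pos
    have h2 := p_lt
    cases b
    · change ENNReal.ofReal (1 - p) ≠ 0
      simp only [ne_eq, ENNReal.ofReal_eq_zero, not_le]
      linarith
    · change ENNReal.ofReal p ≠ 0
      simp only [ne_eq, ENNReal.ofReal_eq_zero, not_le]
      exact h1
  exact h

lemma primitive_sub : sub.Primitive := by
  refine ⟨1, fun d c => ?_⟩
  rw [pow_one]
  unfold RandomSubst.matrix
  refine Summable.tsum_pos (i := blk true) ?_ (fun s => by positivity) ?_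
  · refine summable_of_hasFiniteSupport ((sub.finite c).subset fun s hs => ?_)
    rw [PMF.mem_support_iff]
    intro h0
    rw [Function.mem_support, h0] at hs
    simp at hs
  · refine mul_pos (ENNReal.toReal_pos (law_ne_zero c true) (PMF.apply_ne_top _ _)) ?_
    cases d <;> simp [blk]

/-- Random words with the prescribed laws exist. -/
lemma exists_iteration (ϑ : RandomSubst) (c : Bool) : ∃ (Ω : Type) (_ : MeasurableSpace Ω)
    (P : Measure Ω) (_ : IsProbabilityMeasure P) (W : ℕ → Ω → List Bool),
    IsIteration ϑ c P W := by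
  let _ : MeasurableSpace (List Bool) := ⊤
  refine ⟨ℕ → List Bool, inferInstance, Measure.infinitePi fun n => (ϑ.iter c n).toMeasure,
    inferInstance, fun n ω => ω n, fun n w => ?_⟩
  have h1 : {ω : ℕ → List Bool | ω n = w} = Set.pi ({n} : Finset ℕ) fun _ => {w} := by
    ext x; simp
  have hm : Measurable fun ω : ℕ → List Bool => ω n := measurable_pi_apply n
  refine ⟨hm (measurableSet_singleton w), ?_⟩
  change Measure.infinitePi (fun n => (ϑ.iter c n).toMeasure) {ω : ℕ → List Bool | ω n = w} = _
  rw [h1, Measure.infinitePi_pi _ fun i _ => measurableSet_singleton w, Finset.prod_singleton,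
    PMF.toMeasure_apply_singleton _ _ (measurableSet_singleton w)]

/-- There is a primitive random substitution on `{a, b}` whose frequency measure is the Parry
measure of the golden mean shift. -/
theorem result : ∃ ϑ : RandomSubst, ϑ.Primitive ∧
    (∀ c, ∃ (Ω : Type) (_ : MeasurableSpace Ω) (P : Measure Ω) (_ : IsProbabilityMeasure P)
      (W : ℕ → Ω → List Bool), IsIteration ϑ c P W) ∧
    ∃ μ : Measure (ℤ → Bool), IsParry μ ∧ IsFrequencyMeasure ϑ μ := by
  refine ⟨sub, primitive_sub, exists_iteration sub, μP, isParry_μP, isParry_μP.1, μP_shift, ?_⟩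
  intro c Ω _ P _ W hW v hv
  rw [isParry_μP.2 0 v]
  have h0 : 0 ≤ parry v := by
    have h1 : ∀ c v, 0 ≤ chain c v := by
      intro c v
      induction v generalizing c with
      | nil => exact zero_le_one
      | cons d v ih =>
        have := τ_gt
        refine mul_nonneg ?_ (ih d)
        cases c <;> cases d <;> simp only [trans] <;> positivity
    cases v with
    | nil => exact zero_le_one
    | cons d v =>
      refine mul_nonneg ?_ (h1 d v)
      have := p_pos
      cases d
      · rw [init_false]; positivity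
      · rw [init_true]; positivity
  rw [ENNReal.toReal_ofReal h0]
  exact ae_limit hW v hv

end Pool.Agent.Results.MP_3f28ca_an.ParryFrequency
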